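import Mathlib

/-!
# Proportional binary sequences of arbitrarily large length

For every `m ≥ 3` we give a proportional sequence of length `n = 32 m ^ 2`.  With `K = m ^ 2` and
signs `y`, the sequence satisfies `y (n + 1 - i) = - y i`, so that only three of the seven
correlation sums have to be checked.  On the first quarter `1 ≤ i ≤ 8 K` it is `+` on `[1, 2K+1]`,
`-` on `[2K+2, 6K+3]` and `+` on `[6K+4, 8K]` apart from `m` isolated minus signs at `8K - 2j`
(`j = 0, …, m-2, m`).  The second quarter is the reversed negative of the first, and the second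
half repeats the first half, except for sign changes at four positions per quarter.
-/

open Finset

namespace Pool.Agent.Results.MP_0132f6_co.InfinitelyMany

/-- The 3-term progressions `(a, a + d, a + 2 d)` in `{1, …, n}`, coded by the pairs `(a, d)` with
`a ≥ 1`, `d ≥ 1` and `a + 2 d ≤ n`. -/
def progressions (n : ℕ) : Finset (ℕ × ℕ) :=
  ((Icc 1 n) ×ˢ (Icc 1 n)).filter (fun p => p.1 + 2 * p.2 ≤ n)

/-- `x` (read on the indices `1, …, n`) is proportional: each of the eight types is the type of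
exactly one eighth of the progressions. -/
def IsProportional (n : ℕ) (x : ℕ → Bool) : Prop :=
  ∀ t : Bool × Bool × Bool,
    8 * ((progressions n).filter
      (fun p => (x p.1, x (p.1 + p.2), x (p.1 + 2 * p.2)) = t)).card = (progressions n).card

lemma mem_prog {n a d : ℕ} : (a, d) ∈ progressions n ↔ 1 ≤ a ∧ 1 ≤ d ∧ a + 2 * d ≤ n := by
  unfold progressions
  simp only [mem_filter, mem_product, mem_Icc]
  constructor
  · rintro ⟨⟨⟨h1, h2⟩, h3, h4⟩, h5⟩; exact ⟨h1, h3, h5⟩
  · rintro ⟨h1, h2, h3⟩; exact ⟨⟨⟨h1, by omega⟩, h2, by omega⟩, h3⟩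

/-- the sign of a boolean -/
def sg (b : Bool) : ℤ := if b then 1 else -1

lemma sg_sq (b : Bool) : sg b * sg b = 1 := by cases b <;> simp [sg]

/-- reversal of progressions -/
lemma sum_reverse (n : ℕ) (f : ℕ → ℕ → ℤ) :
    ∑ p ∈ progressions n, f p.1 p.2 = ∑ p ∈ progressions n, f (n + 1 - p.1 - 2 * p.2) p.2 := by
  refine Finset.sum_nbij' (fun p => (n + 1 - p.1 - 2 * p.2, p.2))
    (fun p => (n + 1 - p.1 - 2 * p.2, p.2)) ?_ ?_ ?_ ?_ ?_
  · rintro ⟨a, d⟩ h
    rw [mem_prog] at h ⊢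
    omega
  · rintro ⟨a, d⟩ h
    rw [mem_prog] at h ⊢
    omega
  · rintro ⟨a, d⟩ h
    rw [mem_prog] at h
    simp only [Prod.mk.injEq, and_true]
    omega
  · rintro ⟨a, d⟩ h
    rw [mem_prog] at h
    simp only [Prod.mk.injEq, and_true]
    omega
  · rintro ⟨a, d⟩ h
    rw [mem_prog] at h
    congr 1
    simp only
    omega

/-- If the seven correlation sums vanish then the sequence is proportional. -/
lemma proportional_of_sums (n : ℕ) (x : ℕ → Bool) (y : ℕ → ℤ) (hy : ∀ i, y i = sg (x i))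
    (h1 : ∑ p ∈ progressions n, y p.1 = 0)
    (h2 : ∑ p ∈ progressions n, y (p.1 + p.2) = 0)
    (h3 : ∑ p ∈ progressions n, y (p.1 + 2 * p.2) = 0)
    (h12 : ∑ p ∈ progressions n, y p.1 * y (p.1 + p.2) = 0)
    (h13 : ∑ p ∈ progressions n, y p.1 * y (p.1 + 2 * p.2) = 0)
    (h23 : ∑ p ∈ progressions n, y (p.1 + p.2) * y (p.1 + 2 * p.2) = 0)
    (h123 : ∑ p ∈ progressions n, y p.1 * y (p.1 + p.2) * y (p.1 + 2 * p.2) = 0) :
    IsProportional n x := by
  rintro ⟨t1, t2, t3⟩
  have key : ∀ p : ℕ × ℕ, (8 : ℤ) * (if (x p.1, x (p.1 + p.2), x (p.1 + 2 * p.2)) = (t1, t2, t3)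
      then 1 else 0) = 1 + sg t1 * y p.1 + sg t2 * y (p.1 + p.2) + sg t3 * y (p.1 + 2 * p.2)
      + sg t1 * sg t2 * (y p.1 * y (p.1 + p.2)) + sg t1 * sg t3 * (y p.1 * y (p.1 + 2 * p.2))
      + sg t2 * sg t3 * (y (p.1 + p.2) * y (p.1 + 2 * p.2))
      + sg t1 * sg t2 * sg t3 * (y p.1 * y (p.1 + p.2) * y (p.1 + 2 * p.2)) := by
    intro p
    rw [hy, hy, hy]
    generalize x p.1 = b1
    generalize x (p.1 + p.2) = b2
    generalize x (p.1 + 2 * p.2) = b3
    cases b1 <;> cases b2 <;> cases b3 <;> cases t1 <;> cases t2 <;> cases t3 <;> simp [sg]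
  have hsum := Finset.sum_congr (rfl : progressions n = progressions n) (fun p _ => key p)
  rw [← Finset.mul_sum, Finset.sum_ite, Finset.sum_const_zero, add_zero, Finset.sum_const] at hsum
  simp only [Finset.sum_add_distrib, ← Finset.mul_sum, h1, h2, h3, h12, h13, h23, h123,
    Finset.sum_const, mul_zero, add_zero, nsmul_eq_mul, mul_one] at hsum
  exact_mod_cast hsum

/-- For antisymmetric sequences three of the sums suffice. -/
lemma proportional_of_antisymm (n : ℕ) (x : ℕ → Bool) (y : ℕ → ℤ) (hy : ∀ i, y i = sg (x i))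
    (hanti : ∀ i, 1 ≤ i → i ≤ n → y (n + 1 - i) = - y i)
    (h1 : ∑ p ∈ progressions n, y p.1 = 0)
    (h12 : ∑ p ∈ progressions n, y p.1 * y (p.1 + p.2) = 0)
    (h13 : ∑ p ∈ progressions n, y p.1 * y (p.1 + 2 * p.2) = 0) :
    IsProportional n x := by
  have r1 : ∀ p ∈ progressions n, y (n + 1 - p.1 - 2 * p.2) = - y (p.1 + 2 * p.2) := by
    rintro ⟨a, d⟩ h
    rw [mem_prog] at h
    have := hanti (a + 2 * d) (by omega) (by omega)
    simp only
    rw [← this]; congr 1; omega
  have r2 : ∀ p ∈ progressions n, y (n + 1 - p.1 - 2 * p.2 + p.2) = - y (p.1 + p.2) := by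
    rintro ⟨a, d⟩ h
    rw [mem_prog] at h
    have := hanti (a + d) (by omega) (by omega)
    simp only
    rw [← this]; congr 1; omega
  have r3 : ∀ p ∈ progressions n, y (n + 1 - p.1 - 2 * p.2 + 2 * p.2) = - y p.1 := by
    rintro ⟨a, d⟩ h
    rw [mem_prog] at h
    have := hanti a (by omega) (by omega)
    simp only
    rw [← this]; congr 1; omega
  apply proportional_of_sums n x y hy h1
  · have := sum_reverse n (fun a d => y (a + d))
    rw [Finset.sum_congr rfl r2, Finset.sum_neg_distrib] at this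
    linarith
  · have := sum_reverse n (fun a d => y a)
    rw [Finset.sum_congr rfl r1, Finset.sum_neg_distrib] at this
    linarith
  · exact h12
  · exact h13
  · have := sum_reverse n (fun a d => y a * y (a + d))
    have e : ∑ p ∈ progressions n, y (n + 1 - p.1 - 2 * p.2) * y (n + 1 - p.1 - 2 * p.2 + p.2)
        = ∑ p ∈ progressions n, y (p.1 + p.2) * y (p.1 + 2 * p.2) :=
      Finset.sum_congr rfl (fun p hp => by rw [r1 p hp, r2 p hp]; ring)
    rw [← e, ← this, h12]
  · have := sum_reverse n (fun a d => y a * y (a + d) * y (a + 2 * d))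
    have e : ∑ p ∈ progressions n, y (n + 1 - p.1 - 2 * p.2) * y (n + 1 - p.1 - 2 * p.2 + p.2)
          * y (n + 1 - p.1 - 2 * p.2 + 2 * p.2)
        = - ∑ p ∈ progressions n, y p.1 * y (p.1 + p.2) * y (p.1 + 2 * p.2) := by
      rw [← Finset.sum_neg_distrib]
      exact Finset.sum_congr rfl (fun p hp => by rw [r1 p hp, r2 p hp, r3 p hp]; ring)
    rw [e] at this
    linarith

/-- prefix sums -/
def pfx (y : ℕ → ℤ) (k : ℕ) : ℤ := ∑ i ∈ Icc 1 k, y i

lemma pfx_zero (y : ℕ → ℤ) : pfx y 0 = 0 := by simp [pfx]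

lemma pfx_succ (y : ℕ → ℤ) (k : ℕ) : pfx y (k + 1) = pfx y k + y (k + 1) := by
  unfold pfx
  rw [Finset.sum_Icc_succ_top (by omega)]

/-- the sum of `y a` over progressions -/
lemma sum_first (n : ℕ) (y : ℕ → ℤ) :
    ∑ p ∈ progressions n, y p.1 = ∑ a ∈ Icc 1 n, y a * (((n - a) / 2 : ℕ) : ℤ) := by
  unfold progressions
  rw [Finset.sum_filter, Finset.sum_product]
  apply Finset.sum_congr rfl
  intro a ha
  rw [mem_Icc] at ha
  simp only
  rw [← Finset.sum_filter, Finset.sum_const]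
  have : ((Icc 1 n).filter (fun d => a + 2 * d ≤ n)) = Icc 1 ((n - a) / 2) := by
    ext d
    simp only [mem_filter, mem_Icc]
    omega
  rw [this, Nat.card_Icc]
  simp only [add_tsub_cancel_right, nsmul_eq_mul]
  ring

/-- the sum of `y a * y (a + d)` over progressions -/
lemma sum_first_second (n : ℕ) (y : ℕ → ℤ) :
    ∑ p ∈ progressions n, y p.1 * y (p.1 + p.2)
      = ∑ b ∈ Icc 1 n, y b * (pfx y (b - 1) - pfx y (2 * b - n - 1)) := by
  have h1 : ∑ p ∈ progressions n, y p.1 * y (p.1 + p.2)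
      = ∑ b ∈ Icc 1 n, ∑ a ∈ (Icc 1 (b - 1)).filter (fun a => 2 * b ≤ a + n), y a * y b := by
    rw [Finset.sum_sigma']
    refine Finset.sum_nbij' (fun p => ⟨p.1 + p.2, p.1⟩) (fun q => (q.2, q.1 - q.2)) ?_ ?_ ?_ ?_ ?_
    · rintro ⟨a, d⟩ h
      rw [mem_prog] at h
      simp only [mem_sigma, mem_filter, mem_Icc]
      omega
    · rintro ⟨b, a⟩ h
      simp only [mem_sigma, mem_filter, mem_Icc] at h
      obtain ⟨⟨g1, g2⟩, ⟨g3, g4⟩, g5⟩ := h
      show (a, b - a) ∈ progressions n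
      rw [mem_prog]
      refine ⟨g3, by omega, by omega⟩
    · rintro ⟨a, d⟩ h
      simp
    · rintro ⟨b, a⟩ h
      simp only [mem_sigma, mem_filter, mem_Icc] at h
      obtain ⟨⟨g1, g2⟩, ⟨g3, g4⟩, g5⟩ := h
      simp only [Sigma.mk.injEq, heq_eq_eq, and_true]
      omega
    · rintro ⟨a, d⟩ h
      rfl
  rw [h1]
  apply Finset.sum_congr rfl
  intro b hb
  rw [mem_Icc] at hb
  rw [← Finset.sum_mul, mul_comm]
  congr 1
  have h2 : (Icc 1 (b - 1)).filter (fun a => 2 * b ≤ a + n)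
      = (Icc 1 (b - 1)) \ (Icc 1 (2 * b - n - 1)) := by
    ext a
    simp only [mem_filter, mem_Icc, mem_sdiff]
    omega
  rw [h2]
  have h3 : Icc 1 (2 * b - n - 1) ⊆ Icc 1 (b - 1) := by
    intro a
    simp only [mem_Icc]
    omega
  have := Finset.sum_sdiff (f := y) h3
  unfold pfx
  linarith

/-- `2 ∑ y_b P(b-1) = P(n)^2 - n` -/
lemma two_sum_pfx (y : ℕ → ℤ) (hsq : ∀ i, y i * y i = 1) (n : ℕ) :
    2 * ∑ b ∈ Icc 1 n, y b * pfx y (b - 1) = pfx y n ^ 2 - n := by
  induction n with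
  | zero => simp [pfx_zero]
  | succ k ih =>
    rw [Finset.sum_Icc_succ_top (by omega), mul_add, ih, pfx_succ]
    simp only [add_tsub_cancel_right]
    have := hsq (k + 1)
    push_cast
    linear_combination -this

/-- the sum of `y a * y (a + 2 d)` over progressions -/
lemma sum_first_third (n : ℕ) (y : ℕ → ℤ) :
    ∑ p ∈ progressions n, y p.1 * y (p.1 + 2 * p.2)
      = ∑ c ∈ Icc 1 n, ∑ a ∈ (Icc 1 (c - 1)).filter (fun a => a % 2 = c % 2), y a * y c := by
  rw [Finset.sum_sigma']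
  refine Finset.sum_nbij' (fun p => ⟨p.1 + 2 * p.2, p.1⟩) (fun q => (q.2, (q.1 - q.2) / 2))
    ?_ ?_ ?_ ?_ ?_
  · rintro ⟨a, d⟩ h
    rw [mem_prog] at h
    simp only [mem_sigma, mem_filter, mem_Icc]
    omega
  · rintro ⟨b, a⟩ h
    simp only [mem_sigma, mem_filter, mem_Icc] at h
    obtain ⟨⟨g1, g2⟩, ⟨g3, g4⟩, g5⟩ := h
    show (a, (b - a) / 2) ∈ progressions n
    rw [mem_prog]
    refine ⟨g3, by omega, by omega⟩
  · rintro ⟨a, d⟩ h
    simp
  · rintro ⟨b, a⟩ h
    simp only [mem_sigma, mem_filter, mem_Icc] at h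
    obtain ⟨⟨g1, g2⟩, ⟨g3, g4⟩, g5⟩ := h
    simp only [Sigma.mk.injEq, heq_eq_eq, and_true]
    omega
  · rintro ⟨a, d⟩ h
    rfl

lemma two_sum_par (y : ℕ → ℤ) (hsq : ∀ i, y i * y i = 1) (n : ℕ) :
    2 * ∑ c ∈ Icc 1 n, ∑ a ∈ (Icc 1 (c - 1)).filter (fun a => a % 2 = c % 2), y a * y c
      = (∑ i ∈ (Icc 1 n).filter (fun i => i % 2 = 1), y i) ^ 2
        + (∑ i ∈ (Icc 1 n).filter (fun i => i % 2 = 0), y i) ^ 2 - n := by
  induction n with
  | zero => simp
  | succ k ih =>
    rw [Finset.sum_Icc_succ_top (by omega), mul_add, ih]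
    have hs := hsq (k + 1)
    simp only [Finset.sum_filter, add_tsub_cancel_right] at *
    rw [Finset.sum_Icc_succ_top (by omega), Finset.sum_Icc_succ_top (by omega)]
    rcases Nat.mod_two_eq_zero_or_one (k + 1) with h | h
    · have e : ∑ a ∈ Icc 1 k, (if a % 2 = (k + 1) % 2 then y a * y (k + 1) else 0)
          = (∑ a ∈ Icc 1 k, if a % 2 = 0 then y a else 0) * y (k + 1) := by
        rw [Finset.sum_mul, h]
        apply Finset.sum_congr rfl
        intro a _
        split_ifs <;> simp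
      rw [e, h]
      push_cast
      simp only [add_zero]
      linear_combination -hs
    · have e : ∑ a ∈ Icc 1 k, (if a % 2 = (k + 1) % 2 then y a * y (k + 1) else 0)
          = (∑ a ∈ Icc 1 k, if a % 2 = 1 then y a else 0) * y (k + 1) := by
        rw [Finset.sum_mul, h]
        apply Finset.sum_congr rfl
        intro a _
        split_ifs <;> simp
      rw [e, h]
      push_cast
      simp only [add_zero]
      linear_combination -hs

lemma sum_fold (M : ℕ) (f : ℕ → ℤ) :
    ∑ i ∈ Icc 1 (2 * M), f i = ∑ i ∈ Icc 1 M, (f i + f (2 * M + 1 - i)) := by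
  rw [Finset.sum_add_distrib]
  have h : Icc 1 (2 * M) = Icc 1 M ∪ Icc (M + 1) (2 * M) := by
    ext i; simp only [mem_union, mem_Icc]; omega
  have hd : Disjoint (Icc 1 M) (Icc (M + 1) (2 * M)) := by
    rw [Finset.disjoint_left]
    intro i
    simp only [mem_Icc]
    omega
  rw [h, Finset.sum_union hd]
  congr 1
  refine Finset.sum_nbij' (fun i => 2 * M + 1 - i) (fun i => 2 * M + 1 - i) ?_ ?_ ?_ ?_ ?_
  · intro i; simp only [mem_Icc]; omega
  · intro i; simp only [mem_Icc]; omega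
  · intro i; simp only [mem_Icc]; omega
  · intro i; simp only [mem_Icc]; omega
  · intro i; simp only [mem_Icc]; intro hi; congr 1; omega

lemma sum_shift (M : ℕ) (f : ℕ → ℤ) :
    ∑ i ∈ Icc 1 (2 * M), f i = ∑ i ∈ Icc 1 M, (f i + f (M + i)) := by
  rw [Finset.sum_add_distrib]
  have h : Icc 1 (2 * M) = Icc 1 M ∪ Icc (M + 1) (2 * M) := by
    ext i; simp only [mem_union, mem_Icc]; omega
  have hd : Disjoint (Icc 1 M) (Icc (M + 1) (2 * M)) := by
    rw [Finset.disjoint_left]
    intro i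
    simp only [mem_Icc]
    omega
  rw [h, Finset.sum_union hd]
  congr 1
  refine Finset.sum_nbij' (fun i => i - M) (fun i => M + i) ?_ ?_ ?_ ?_ ?_
  · intro i; simp only [mem_Icc]; omega
  · intro i; simp only [mem_Icc]; omega
  · intro i; simp only [mem_Icc]; omega
  · intro i; simp only [mem_Icc]; omega
  · intro i; simp only [mem_Icc]; intro hi; congr 1; omega

lemma sum_fold4 (L : ℕ) (f : ℕ → ℤ) :
    ∑ i ∈ Icc 1 (4 * L), f i
      = ∑ i ∈ Icc 1 L, (f i + f (2 * L + 1 - i) + f (2 * L + i) + f (4 * L + 1 - i)) := by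
  have h : 4 * L = 2 * (2 * L) := by ring
  rw [h, sum_shift, sum_fold]
  apply Finset.sum_congr rfl
  intro i hi
  rw [mem_Icc] at hi
  have : 2 * L + (2 * L + 1 - i) = 2 * (2 * L) + 1 - i := by omega
  rw [this]
  ring

/-- the first quarter of the sequence (used with `K = m ^ 2`) -/
def gB (K m i : ℕ) : Bool :=
  decide (i ≤ 2 * K + 1 ∨
    (6 * K + 4 ≤ i ∧ ¬ ((i % 2 = 0 ∧ 8 * K + 4 ≤ i + 2 * m) ∨ i + 2 * m = 8 * K)))

/-- the four exceptional positions -/
def dB (K i : ℕ) : Bool :=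
  decide (i = K + 1 ∨ i = 3 * K + 2 ∨ i = 3 * K + 3 ∨ i = 7 * K)

/-- the sequence of length `32 K` -/
def X (K m i : ℕ) : Bool :=
  if i ≤ 8 * K then gB K m i
  else if i ≤ 16 * K then
    (if dB K (16 * K + 1 - i) then gB K m (16 * K + 1 - i) else !(gB K m (16 * K + 1 - i)))
  else if i ≤ 24 * K then
    (if dB K (i - 16 * K) then !(gB K m (i - 16 * K)) else gB K m (i - 16 * K))
  else !(gB K m (32 * K + 1 - i))

def Y (K m i : ℕ) : ℤ := sg (X K m i)
def G (K m i : ℕ) : ℤ := sg (gB K m i)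
/-- indicator of the exceptional positions -/
def dd (K i : ℕ) : ℤ := if dB K i then 1 else 0

lemma sg_not (b : Bool) : sg (!b) = - sg b := by cases b <;> simp [sg]

lemma Y_one (K m i : ℕ) (h2 : i ≤ 8 * K) : Y K m i = G K m i := by
  unfold Y X G
  rw [if_pos h2]

lemma Y_two (K m i : ℕ) (h1 : 1 ≤ i) (h2 : i ≤ 8 * K) :
    Y K m (16 * K + 1 - i) = - (1 - 2 * dd K i) * G K m i := by
  unfold Y X G dd
  have e : 16 * K + 1 - (16 * K + 1 - i) = i := by omega
  rw [if_neg (by omega), if_pos (by omega), e]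
  split_ifs
  · norm_num
  · rw [sg_not]; ring

lemma Y_three (K m i : ℕ) (h1 : 1 ≤ i) (h2 : i ≤ 8 * K) :
    Y K m (16 * K + i) = (1 - 2 * dd K i) * G K m i := by
  unfold Y X G dd
  have e : 16 * K + i - 16 * K = i := by omega
  rw [if_neg (by omega), if_neg (by omega), if_pos (by omega), e]
  split_ifs
  · rw [sg_not]; ring
  · ring

lemma Y_four (K m i : ℕ) (h1 : 1 ≤ i) (h2 : i ≤ 8 * K) :
    Y K m (32 * K + 1 - i) = - G K m i := by
  unfold Y X G
  have e : 32 * K + 1 - (32 * K + 1 - i) = i := by omega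
  rw [if_neg (by omega), if_neg (by omega), if_neg (by omega), e, sg_not]

lemma Y_anti (K m i : ℕ) (h1 : 1 ≤ i) (h2 : i ≤ 32 * K) :
    Y K m (32 * K + 1 - i) = - Y K m i := by
  rcases le_or_gt i (8 * K) with h | h
  · rw [Y_four K m i h1 h, Y_one K m i h]
  rcases le_or_gt i (16 * K) with h' | h'
  · have a := Y_two K m (16 * K + 1 - i) (by omega) (by omega)
    have b := Y_three K m (16 * K + 1 - i) (by omega) (by omega)
    have e1 : 16 * K + 1 - (16 * K + 1 - i) = i := by omega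
    have e2 : 16 * K + (16 * K + 1 - i) = 32 * K + 1 - i := by omega
    rw [e1] at a
    rw [e2] at b
    rw [a, b]; ring
  rcases le_or_gt i (24 * K) with h'' | h''
  · have a := Y_two K m (i - 16 * K) (by omega) (by omega)
    have b := Y_three K m (i - 16 * K) (by omega) (by omega)
    have e1 : 16 * K + 1 - (i - 16 * K) = 32 * K + 1 - i := by omega
    have e2 : 16 * K + (i - 16 * K) = i := by omega
    rw [e1] at a
    rw [e2] at b
    rw [a, b]; ring
  · have a := Y_four K m (32 * K + 1 - i) (by omega) (by omega)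
    have b := Y_one K m (32 * K + 1 - i) (by omega)
    have e1 : 32 * K + 1 - (32 * K + 1 - i) = i := by omega
    rw [e1] at a
    rw [a, b]; ring

lemma Y_sq (K m i : ℕ) : Y K m i * Y K m i = 1 := sg_sq _

/-- sum of a function against the indicator of the exceptional positions -/
lemma sum_dd (K : ℕ) (hK : 9 ≤ K) (f : ℕ → ℤ) :
    ∑ i ∈ Icc 1 (8 * K), dd K i * f i
      = f (K + 1) + f (3 * K + 2) + f (3 * K + 3) + f (7 * K) := by
  have h : ∀ i, dd K i * f i = (if i = K + 1 then f i else 0) + (if i = 3 * K + 2 then f i else 0)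
      + (if i = 3 * K + 3 then f i else 0) + (if i = 7 * K then f i else 0) := by
    intro i
    unfold dd dB
    by_cases c1 : i = K + 1
    · have : i ≠ 3 * K + 2 := by omega
      have : i ≠ 3 * K + 3 := by omega
      have : i ≠ 7 * K := by omega
      simp_all
    by_cases c2 : i = 3 * K + 2
    · have : i ≠ 3 * K + 3 := by omega
      have : i ≠ 7 * K := by omega
      simp_all
    by_cases c3 : i = 3 * K + 3
    · have : i ≠ 7 * K := by omega
      simp_all
    by_cases c4 : i = 7 * K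
    · simp_all
    simp_all
  rw [Finset.sum_congr rfl (fun i _ => h i)]
  simp only [Finset.sum_add_distrib, Finset.sum_ite_eq', mem_Icc]
  rw [if_pos (by omega), if_pos (by omega), if_pos (by omega), if_pos (by omega)]

lemma G_eq (K m i : ℕ) : G K m i = (1 - 2 * (if 2 * K + 2 ≤ i ∧ i ≤ 6 * K + 3 then (1 : ℤ) else 0))
    - 2 * (if 6 * K + 4 ≤ i ∧ ((i % 2 = 0 ∧ 8 * K + 4 ≤ i + 2 * m) ∨ i + 2 * m = 8 * K)
      then (1 : ℤ) else 0) := by
  unfold G gB sg
  simp only [decide_eq_true_eq]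
  by_cases c1 : i ≤ 2 * K + 1
  · rw [if_pos (Or.inl c1), if_neg (by omega), if_neg (by omega)]; norm_num
  by_cases c2 : i ≤ 6 * K + 3
  · rw [if_neg (by omega), if_pos (by omega), if_neg (by omega)]; norm_num
  by_cases c3 : ((i % 2 = 0 ∧ 8 * K + 4 ≤ i + 2 * m) ∨ i + 2 * m = 8 * K)
  · rw [if_neg, if_neg (by omega), if_pos ⟨by omega, c3⟩]
    · norm_num
    · rintro (h | h)
      · exact c1 h
      · exact h.2 c3
  · rw [if_pos, if_neg (by omega), if_neg]
    · norm_num
    · rintro h; exact c3 h.2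
    · right; exact ⟨by omega, c3⟩

/-- sum of a function over the set `F` of isolated minus signs -/
lemma sum_F (K m : ℕ) (hm : 3 ≤ m) (hK : 2 * m + 6 ≤ 2 * K) (f : ℕ → ℤ) :
    ∑ i ∈ Icc 1 (8 * K), (if 6 * K + 4 ≤ i ∧
      ((i % 2 = 0 ∧ 8 * K + 4 ≤ i + 2 * m) ∨ i + 2 * m = 8 * K) then (1 : ℤ) else 0) * f i
      = (∑ j ∈ range (m - 1), f (8 * K - 2 * j)) + f (8 * K - 2 * m) := by
  have h1 : ∀ i, (if 6 * K + 4 ≤ i ∧ ((i % 2 = 0 ∧ 8 * K + 4 ≤ i + 2 * m) ∨ i + 2 * m = 8 * K)
      then (1 : ℤ) else 0) * f i = (if i % 2 = 0 ∧ 8 * K + 4 ≤ i + 2 * m then f i else 0)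
        + (if i = 8 * K - 2 * m then f i else 0) := by
    intro i
    by_cases c1 : i % 2 = 0 ∧ 8 * K + 4 ≤ i + 2 * m
    · rw [if_pos (by omega), if_pos c1, if_neg (by omega)]; ring
    by_cases c2 : i = 8 * K - 2 * m
    · rw [if_pos (by omega), if_neg (by omega), if_pos c2]; ring
    · rw [if_neg (by omega), if_neg c1, if_neg c2]; ring
  rw [Finset.sum_congr rfl (fun i _ => h1 i), Finset.sum_add_distrib, Finset.sum_ite_eq',
    if_pos (by rw [mem_Icc]; omega)]
  congr 1
  rw [← Finset.sum_filter]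
  refine Finset.sum_nbij' (fun i => (8 * K - i) / 2) (fun j => 8 * K - 2 * j) ?_ ?_ ?_ ?_ ?_
  · intro i; simp only [mem_filter, mem_Icc, mem_range]; omega
  · intro j; simp only [mem_filter, mem_Icc, mem_range]; omega
  · intro i; simp only [mem_filter, mem_Icc]; omega
  · intro j; simp only [mem_range]; omega
  · intro i; simp only [mem_filter, mem_Icc]; intro hi; congr 1; omega

lemma sum_interval (a b : ℕ) (f : ℕ → ℤ) (hab : a ≤ b + 1) (N : ℕ) (hN : b ≤ N) (ha : 1 ≤ a) :
    ∑ i ∈ Icc 1 N, (if a ≤ i ∧ i ≤ b then (1 : ℤ) else 0) * f i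
      = ∑ i ∈ Icc 1 b, f i - ∑ i ∈ Icc 1 (a - 1), f i := by
  simp only [ite_mul, one_mul, zero_mul]
  rw [← Finset.sum_filter]
  have h : (Icc 1 N).filter (fun i => a ≤ i ∧ i ≤ b) = Icc 1 b \ Icc 1 (a - 1) := by
    ext i; simp only [mem_filter, mem_Icc, mem_sdiff]; omega
  rw [h]
  have := Finset.sum_sdiff (f := f) (show Icc 1 (a - 1) ⊆ Icc 1 b by
    intro i; simp only [mem_Icc]; omega)
  linarith

/-- sum of `G` against a function -/
lemma sum_G (K m : ℕ) (hm : 3 ≤ m) (hK : 2 * m + 6 ≤ 2 * K) (f : ℕ → ℤ) :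
    ∑ i ∈ Icc 1 (8 * K), G K m i * f i
      = ∑ i ∈ Icc 1 (8 * K), f i - 2 * (∑ i ∈ Icc 1 (6 * K + 3), f i - ∑ i ∈ Icc 1 (2 * K + 1), f i)
        - 2 * ((∑ j ∈ range (m - 1), f (8 * K - 2 * j)) + f (8 * K - 2 * m)) := by
  rw [← sum_F K m hm hK f]
  have h2 := sum_interval (2 * K + 2) (6 * K + 3) f (by omega) (8 * K) (by omega) (by omega)
  have e : 2 * K + 2 - 1 = 2 * K + 1 := by omega
  rw [e] at h2
  rw [← h2, Finset.mul_sum, Finset.mul_sum, ← Finset.sum_sub_distrib, ← Finset.sum_sub_distrib]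
  apply Finset.sum_congr rfl
  intro i _
  rw [G_eq]
  ring

/-- `1` for even `i`, `0` for odd `i` -/
def ev (i : ℕ) : ℤ := if i % 2 = 0 then 1 else 0

lemma sum_W (c : ℤ) (k : ℕ) :
    ∑ i ∈ Icc 1 k, (c - 2 * (i : ℤ) + 2 * ev i) = c * k - (k : ℤ) ^ 2 - (1 - ev k) := by
  induction k with
  | zero => simp [ev]
  | succ k ih =>
    rw [Finset.sum_Icc_succ_top (by omega), ih]
    unfold ev
    rcases Nat.mod_two_eq_zero_or_one k with h | h
    · have : (k + 1) % 2 = 1 := by omega
      rw [h, this]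
      push_cast
      ring
    · have : (k + 1) % 2 = 0 := by omega
      rw [h, this]
      push_cast
      ring

lemma sum_eps (k : ℕ) : ∑ i ∈ Icc 1 k, (1 - 2 * ev i) = 1 - ev k := by
  induction k with
  | zero => simp [ev]
  | succ k ih =>
    rw [Finset.sum_Icc_succ_top (by omega), ih]
    unfold ev
    rcases Nat.mod_two_eq_zero_or_one k with h | h
    · have : (k + 1) % 2 = 1 := by omega
      rw [h, this]
      simp
    · have : (k + 1) % 2 = 0 := by omega
      rw [h, this]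
      simp

lemma ev_even {k : ℕ} (h : k % 2 = 0) : ev k = 1 := by simp [ev, h]
lemma ev_odd {k : ℕ} (h : k % 2 = 1) : ev k = 0 := by simp [ev, h]

lemma G_pos (K m i : ℕ) (h : i ≤ 2 * K + 1) : G K m i = 1 := by
  rw [G_eq, if_neg (by omega), if_neg (by omega)]; norm_num

lemma G_neg (K m i : ℕ) (h : 2 * K + 2 ≤ i) (h' : i ≤ 6 * K + 3) : G K m i = -1 := by
  rw [G_eq, if_pos (by omega), if_neg (by omega)]; norm_num

lemma G_pos' (K m i : ℕ) (h : 6 * K + 4 ≤ i) (h' : i + 2 * m < 8 * K) : G K m i = 1 := by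
  rw [G_eq, if_neg (by omega), if_neg (by omega)]; norm_num

lemma S1_zero (m K : ℕ) (hm : 3 ≤ m) (hKm : K = m * m) (hK9 : 9 ≤ K) (hK : 2 * m + 6 ≤ 2 * K)
    (hK7 : 2 * m < K) :
    ∑ p ∈ progressions (32 * K), Y K m p.1 = 0 := by
  rw [sum_first]
  have h4 : 32 * K = 4 * (8 * K) := by ring
  rw [h4, sum_fold4]
  have step : ∀ i ∈ Icc 1 (8 * K),
      Y K m i * (((4 * (8 * K) - i) / 2 : ℕ) : ℤ)
        + Y K m (2 * (8 * K) + 1 - i) * (((4 * (8 * K) - (2 * (8 * K) + 1 - i)) / 2 : ℕ) : ℤ)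
        + Y K m (2 * (8 * K) + i) * (((4 * (8 * K) - (2 * (8 * K) + i)) / 2 : ℕ) : ℤ)
        + Y K m (4 * (8 * K) + 1 - i) * (((4 * (8 * K) - (4 * (8 * K) + 1 - i)) / 2 : ℕ) : ℤ)
      = G K m i * (((16 * K : ℕ) : ℤ) - 2 * i + 2 * ev i)
        + 2 * (dd K i * (G K m i * ((i : ℤ) - ev i))) := by
    intro i hi
    rw [mem_Icc] at hi
    have e1 : 2 * (8 * K) = 16 * K := by ring
    have e2 : 4 * (8 * K) = 32 * K := by ring
    rw [e1, e2, Y_one K m i hi.2, Y_two K m i hi.1 hi.2, Y_three K m i hi.1 hi.2,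
      Y_four K m i hi.1 hi.2]
    have a1 : (((32 * K - i) / 2 : ℕ) : ℤ) - (((32 * K - (32 * K + 1 - i)) / 2 : ℕ) : ℤ)
        = ((16 * K : ℕ) : ℤ) - i + ev i := by
      unfold ev
      split_ifs <;> omega
    have a2 : (((32 * K - (16 * K + 1 - i)) / 2 : ℕ) : ℤ) - (((32 * K - (16 * K + i)) / 2 : ℕ) : ℤ)
        = (i : ℤ) - ev i := by
      unfold ev
      split_ifs <;> omega
    linear_combination (G K m i) * a1 - (1 - 2 * dd K i) * (G K m i) * a2
  rw [Finset.sum_congr rfl step, Finset.sum_add_distrib, ← Finset.mul_sum, sum_dd K hK9,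
    sum_G K m hm hK, sum_W, sum_W, sum_W, G_pos K m (K + 1) (by omega),
    G_neg K m (3 * K + 2) (by omega) (by omega), G_neg K m (3 * K + 3) (by omega) (by omega),
    G_pos' K m (7 * K) (by omega) (by omega)]
  have hF : ∑ j ∈ range (m - 1), (((16 * K : ℕ) : ℤ) - 2 * ((8 * K - 2 * j : ℕ) : ℤ)
      + 2 * ev (8 * K - 2 * j)) = 2 * ((m - 1 : ℕ) : ℤ) ^ 2 := by
    have : ∀ j ∈ range (m - 1), (((16 * K : ℕ) : ℤ) - 2 * ((8 * K - 2 * j : ℕ) : ℤ)
      + 2 * ev (8 * K - 2 * j)) = 4 * (j : ℤ) + 2 := by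
      intro j hj
      rw [mem_range] at hj
      rw [ev_even (by omega)]
      omega
    rw [Finset.sum_congr rfl this]
    generalize m - 1 = r
    induction r with
    | zero => simp
    | succ r ih => rw [Finset.sum_range_succ, ih]; push_cast; ring
  rw [hF, ev_even (show (8 * K - 2 * m) % 2 = 0 by omega), ev_even (show (8 * K) % 2 = 0 by omega),
    ev_odd (show (6 * K + 3) % 2 = 1 by omega), ev_odd (show (2 * K + 1) % 2 = 1 by omega)]
  have e3 : ev (K + 1) + ev (7 * K) = 1 := by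
    rcases Nat.mod_two_eq_zero_or_one K with h | h
    · rw [ev_odd (show (K + 1) % 2 = 1 by omega), ev_even (show (7 * K) % 2 = 0 by omega)]; norm_num
    · rw [ev_even (show (K + 1) % 2 = 0 by omega), ev_odd (show (7 * K) % 2 = 1 by omega)]; norm_num
  have e4 : ev (3 * K + 2) + ev (3 * K + 3) = 1 := by
    rcases Nat.mod_two_eq_zero_or_one K with h | h
    · rw [ev_odd (show (3 * K + 3) % 2 = 1 by omega), ev_even (show (3 * K + 2) % 2 = 0 by omega)]
      norm_num
    · rw [ev_even (show (3 * K + 3) % 2 = 0 by omega), ev_odd (show (3 * K + 2) % 2 = 1 by omega)]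
      norm_num
  have e5 : ((8 * K - 2 * m : ℕ) : ℤ) = 8 * K - 2 * m := by omega
  have e6 : ((m - 1 : ℕ) : ℤ) = m - 1 := by omega
  have e7 : (K : ℤ) = m * m := by exact_mod_cast hKm
  rw [e5, e6]
  push_cast
  linear_combination 2 * e4 - 2 * e3 + 4 * e7

lemma S13_zero (m K : ℕ) (hm : 3 ≤ m) (hKm : K = m * m) (hK9 : 9 ≤ K) (hK : 2 * m + 6 ≤ 2 * K)
    (hK7 : 2 * m < K) :
    ∑ p ∈ progressions (32 * K), Y K m p.1 * Y K m (p.1 + 2 * p.2) = 0 := by
  rw [sum_first_third]
  have h2 := two_sum_par (Y K m) (Y_sq K m) (32 * K)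
  -- the sum over odd indices
  have hO : ∑ i ∈ (Icc 1 (32 * K)).filter (fun i => i % 2 = 1), Y K m i = 4 * m := by
    rw [Finset.sum_filter]
    have h4 : 32 * K = 4 * (8 * K) := by ring
    rw [h4, sum_fold4]
    have step : ∀ i ∈ Icc 1 (8 * K),
        (if i % 2 = 1 then Y K m i else 0)
          + (if (2 * (8 * K) + 1 - i) % 2 = 1 then Y K m (2 * (8 * K) + 1 - i) else 0)
          + (if (2 * (8 * K) + i) % 2 = 1 then Y K m (2 * (8 * K) + i) else 0)
          + (if (4 * (8 * K) + 1 - i) % 2 = 1 then Y K m (4 * (8 * K) + 1 - i) else 0)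
        = 2 * (G K m i * (1 - 2 * ev i)) - 2 * (dd K i * (G K m i * (1 - 2 * ev i))) := by
      intro i hi
      rw [mem_Icc] at hi
      have e1 : 2 * (8 * K) = 16 * K := by ring
      have e2 : 4 * (8 * K) = 32 * K := by ring
      rw [e1, e2, Y_one K m i hi.2, Y_two K m i hi.1 hi.2, Y_three K m i hi.1 hi.2,
        Y_four K m i hi.1 hi.2]
      rcases Nat.mod_two_eq_zero_or_one i with h | h
      · rw [if_neg (by omega), if_pos (by omega), if_neg (by omega), if_pos (by omega), ev_even h]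
        ring
      · rw [if_pos (by omega), if_neg (by omega), if_pos (by omega), if_neg (by omega), ev_odd h]
        ring
    rw [Finset.sum_congr rfl step, Finset.sum_sub_distrib, ← Finset.mul_sum, ← Finset.mul_sum,
      sum_dd K hK9, sum_G K m hm hK, sum_eps, sum_eps, sum_eps, G_pos K m (K + 1) (by omega),
      G_neg K m (3 * K + 2) (by omega) (by omega), G_neg K m (3 * K + 3) (by omega) (by omega),
      G_pos' K m (7 * K) (by omega) (by omega)]
    have hF : ∑ j ∈ range (m - 1), (1 - 2 * ev (8 * K - 2 * j)) = - ((m - 1 : ℕ) : ℤ) := by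
      have : ∀ j ∈ range (m - 1), (1 - 2 * ev (8 * K - 2 * j)) = -1 := by
        intro j hj
        rw [ev_even (by omega)]
        norm_num
      rw [Finset.sum_congr rfl this]
      simp
    rw [hF, ev_even (show (8 * K - 2 * m) % 2 = 0 by omega),
      ev_even (show (8 * K) % 2 = 0 by omega),
      ev_odd (show (6 * K + 3) % 2 = 1 by omega), ev_odd (show (2 * K + 1) % 2 = 1 by omega)]
    have e3 : ev (K + 1) + ev (7 * K) = 1 := by
      rcases Nat.mod_two_eq_zero_or_one K with h | h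
      · rw [ev_odd (show (K + 1) % 2 = 1 by omega), ev_even (show (7 * K) % 2 = 0 by omega)]
        norm_num
      · rw [ev_even (show (K + 1) % 2 = 0 by omega), ev_odd (show (7 * K) % 2 = 1 by omega)]
        norm_num
    have e4 : ev (3 * K + 2) + ev (3 * K + 3) = 1 := by
      rcases Nat.mod_two_eq_zero_or_one K with h | h
      · rw [ev_odd (show (3 * K + 3) % 2 = 1 by omega), ev_even (show (3 * K + 2) % 2 = 0 by omega)]
        norm_num
      · rw [ev_even (show (3 * K + 3) % 2 = 0 by omega), ev_odd (show (3 * K + 2) % 2 = 1 by omega)]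
        norm_num
    have e6 : ((m - 1 : ℕ) : ℤ) = m - 1 := by omega
    rw [e6]
    linear_combination 4 * e3 - 4 * e4
  have hA : ∑ i ∈ Icc 1 (32 * K), Y K m i = 0 := by
    have h4 : 32 * K = 2 * (16 * K) := by ring
    rw [h4, sum_fold]
    apply Finset.sum_eq_zero
    intro i hi
    rw [mem_Icc] at hi
    have e2 : 2 * (16 * K) = 32 * K := by ring
    rw [e2, Y_anti K m i hi.1 (by omega)]
    ring
  have hE : ∑ i ∈ (Icc 1 (32 * K)).filter (fun i => i % 2 = 0), Y K m i = - (4 * m) := by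
    have hsplit := Finset.sum_filter_add_sum_filter_not (Icc 1 (32 * K)) (fun i => i % 2 = 1)
      (Y K m)
    have hf : (Icc 1 (32 * K)).filter (fun i => ¬ i % 2 = 1)
        = (Icc 1 (32 * K)).filter (fun i => i % 2 = 0) := by
      apply Finset.filter_congr
      intro i _
      omega
    rw [hf, hO, hA] at hsplit
    linarith
  rw [hO, hE] at h2
  have e7 : (K : ℤ) = m * m := by exact_mod_cast hKm
  push_cast at h2
  linarith

lemma pfx_symm (K m k : ℕ) (hk : k ≤ 16 * K) : pfx (Y K m) (32 * K - k) = pfx (Y K m) k := by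
  have h : ∀ j, j ≤ 32 * K → pfx (Y K m) (32 * K - j) = pfx (Y K m) j
      + (pfx (Y K m) (32 * K)) := by
    intro j
    induction j with
    | zero => intro _; simp [pfx_zero]
    | succ j ih =>
      intro hj
      have ih' := ih (by omega)
      have e : 32 * K - j = (32 * K - (j + 1)) + 1 := by omega
      rw [e, pfx_succ] at ih'
      have e2 : 32 * K - (j + 1) + 1 = 32 * K + 1 - (j + 1) := by omega
      rw [e2, Y_anti K m (j + 1) (by omega) hj] at ih'
      rw [pfx_succ]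
      linarith
  have h0 := h (32 * K) le_rfl
  simp only [tsub_self, pfx_zero] at h0
  have := h k (by omega)
  linarith

lemma pfx_total (K m : ℕ) : pfx (Y K m) (32 * K) = 0 := by
  have := pfx_symm K m 0 (by omega)
  simpa [pfx_zero] using this

lemma S12_zero (m K : ℕ) (hK9 : 9 ≤ K) (hK : 2 * m + 6 ≤ 2 * K) (hK7 : 2 * m < K) :
    ∑ p ∈ progressions (32 * K), Y K m p.1 * Y K m (p.1 + p.2) = 0 := by
  rw [sum_first_second]
  simp only [mul_sub, Finset.sum_sub_distrib]
  have h2 := two_sum_pfx (Y K m) (Y_sq K m) (32 * K)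
  rw [pfx_total] at h2
  -- second part
  have h3 : ∑ b ∈ Icc 1 (32 * K), Y K m b * pfx (Y K m) (2 * b - 32 * K - 1)
      = -2 * ∑ i ∈ Icc 1 (8 * K), dd K i * (G K m i * pfx (Y K m) (2 * i - 1)) := by
    have h4 : ∑ b ∈ Icc 1 (32 * K), Y K m b * pfx (Y K m) (2 * b - 32 * K - 1)
        = ∑ b ∈ Icc 1 (2 * (16 * K)), Y K m b * pfx (Y K m) (2 * b - 32 * K - 1) := by
      have : 32 * K = 2 * (16 * K) := by ring
      rw [← this]
    rw [h4, sum_shift]
    have h5 : ∀ i ∈ Icc 1 (16 * K), Y K m i * pfx (Y K m) (2 * i - 32 * K - 1)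
        + Y K m (16 * K + i) * pfx (Y K m) (2 * (16 * K + i) - 32 * K - 1)
        = Y K m (16 * K + i) * pfx (Y K m) (2 * i - 1) := by
      intro i hi
      rw [mem_Icc] at hi
      have e1 : 2 * i - 32 * K - 1 = 0 := by omega
      have e2 : 2 * (16 * K + i) - 32 * K - 1 = 2 * i - 1 := by omega
      rw [e1, e2, pfx_zero]
      ring
    rw [Finset.sum_congr rfl h5]
    have h6 : 16 * K = 2 * (8 * K) := by ring
    have h7 : ∑ i ∈ Icc 1 (16 * K), Y K m (16 * K + i) * pfx (Y K m) (2 * i - 1)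
        = ∑ i ∈ Icc 1 (2 * (8 * K)), Y K m (16 * K + i) * pfx (Y K m) (2 * i - 1) := by
      rw [← h6]
    rw [h7, sum_fold, Finset.mul_sum]
    apply Finset.sum_congr rfl
    intro i hi
    rw [mem_Icc] at hi
    have e1 : 16 * K + (2 * (8 * K) + 1 - i) = 32 * K + 1 - i := by omega
    have e2 : 2 * (2 * (8 * K) + 1 - i) - 1 = 32 * K - (2 * i - 1) := by omega
    rw [e1, e2, pfx_symm K m (2 * i - 1) (by omega), Y_three K m i hi.1 hi.2,
      Y_four K m i hi.1 hi.2]
    ring
  rw [h3, sum_dd K hK9, G_pos K m (K + 1) (by omega),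
    G_neg K m (3 * K + 2) (by omega) (by omega), G_neg K m (3 * K + 3) (by omega) (by omega),
    G_pos' K m (7 * K) (by omega) (by omega)]
  -- values of the prefix sums
  have q1 : ∀ k, k ≤ 2 * K + 1 → pfx (Y K m) k = k := by
    intro k
    induction k with
    | zero => intro _; simp [pfx_zero]
    | succ k ih =>
      intro hk
      rw [pfx_succ, ih (by omega), Y_one K m _ (by omega), G_pos K m _ hk]
      push_cast; ring
  have q2 : ∀ k, k ≤ 4 * K + 2 → pfx (Y K m) (2 * K + 1 + k) = 2 * K + 1 - k := by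
    intro k
    induction k with
    | zero => intro _; rw [add_zero, q1 _ le_rfl]; push_cast; ring
    | succ k ih =>
      intro hk
      rw [← add_assoc, pfx_succ, ih (by omega), Y_one K m _ (by omega),
        G_neg K m _ (by omega) (by omega)]
      push_cast; ring
  have q3 : pfx (Y K m) (6 * K + 3) = - 2 * K - 1 := by
    have := q2 (4 * K + 2) le_rfl
    have e : 2 * K + 1 + (4 * K + 2) = 6 * K + 3 := by ring
    rw [e] at this
    rw [this]; push_cast; ring
  have q4 : pfx (Y K m) (6 * K + 5) = - 2 * K + 1 := by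
    rw [pfx_succ, pfx_succ, q3, Y_one K m _ (by omega), Y_one K m _ (by omega),
      G_pos' K m _ (by omega) (by omega), G_pos' K m _ (by omega) (by omega)]
    ring
  have q5 : pfx (Y K m) (16 * K) = 0 := by
    unfold pfx
    have e : 16 * K = 2 * (8 * K) := by ring
    rw [e, sum_fold]
    have : ∀ i ∈ Icc 1 (8 * K), Y K m i + Y K m (2 * (8 * K) + 1 - i)
        = 2 * (dd K i * G K m i) := by
      intro i hi
      rw [mem_Icc] at hi
      rw [← e, Y_one K m i hi.2, Y_two K m i hi.1 hi.2]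
      ring
    rw [Finset.sum_congr rfl this, ← Finset.mul_sum, sum_dd K hK9, G_pos K m (K + 1) (by omega),
      G_neg K m (3 * K + 2) (by omega) (by omega), G_neg K m (3 * K + 3) (by omega) (by omega),
      G_pos' K m (7 * K) (by omega) (by omega)]
    norm_num
  have q6 : ∀ k, k ≤ 2 * K + 1 → pfx (Y K m) (16 * K - k) = k - 2 * ∑ i ∈ Icc 1 k, dd K i := by
    intro k
    induction k with
    | zero => intro _; simp [q5]
    | succ k ih =>
      intro hk
      have ih' := ih (by omega)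
      have e : 16 * K - k = (16 * K - (k + 1)) + 1 := by omega
      rw [e, pfx_succ] at ih'
      have e2 : 16 * K - (k + 1) + 1 = 16 * K + 1 - (k + 1) := by omega
      rw [e2, Y_two K m (k + 1) (by omega) (by omega), G_pos K m _ hk] at ih'
      rw [Finset.sum_Icc_succ_top (by omega)]
      push_cast
      linarith
  have q7 : ∑ i ∈ Icc 1 (2 * K + 1), dd K i = 1 := by
    have : ∀ i ∈ Icc 1 (2 * K + 1), dd K i = if i = K + 1 then 1 else 0 := by
      intro i hi
      rw [mem_Icc] at hi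
      unfold dd dB
      by_cases c1 : i = K + 1
      · simp [c1]
      · have : i ≠ 3 * K + 2 := by omega
        have : i ≠ 3 * K + 3 := by omega
        have : i ≠ 7 * K := by omega
        simp_all
    rw [Finset.sum_congr rfl this, Finset.sum_ite_eq', if_pos (by rw [mem_Icc]; omega)]
  have q8 : pfx (Y K m) (14 * K - 1) = 2 * K - 1 := by
    have := q6 (2 * K + 1) le_rfl
    have e : 16 * K - (2 * K + 1) = 14 * K - 1 := by omega
    rw [e, q7] at this
    rw [this]; push_cast; ring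
  have r1 : 2 * (K + 1) - 1 = 2 * K + 1 := by omega
  have r2 : 2 * (3 * K + 2) - 1 = 6 * K + 3 := by omega
  have r3 : 2 * (3 * K + 3) - 1 = 6 * K + 5 := by omega
  have r4 : 2 * (7 * K) - 1 = 14 * K - 1 := by omega
  rw [r1, r2, r3, r4, q1 _ le_rfl, q3, q4, q8]
  push_cast at h2 ⊢
  linarith

/-- For every `m ≥ 3` there is a proportional sequence of length `32 m ^ 2`. -/
theorem proportional_32 (m : ℕ) (hm : 3 ≤ m) : IsProportional (32 * (m * m)) (X (m * m) m) := by
  have hK9 : 9 ≤ m * m := by nlinarith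
  have hK : 2 * m + 6 ≤ 2 * (m * m) := by nlinarith
  have hK7 : 2 * m < m * m := by nlinarith
  exact proportional_of_antisymm (32 * (m * m)) (X (m * m) m) (Y (m * m) m) (fun _ => rfl)
    (Y_anti (m * m) m) (S1_zero m (m * m) hm rfl hK9 hK hK7) (S12_zero m (m * m) hK9 hK hK7)
    (S13_zero m (m * m) hm rfl hK9 hK hK7)

/-- There are infinitely many lengths `n` for which a proportional binary sequence of length `n`
exists. -/
theorem result : {n : ℕ | 3 ≤ n ∧ ∃ x : ℕ → Bool, IsProportional n x}.Infinite := by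
  apply Set.infinite_of_injective_forall_mem (f := fun k : ℕ => 32 * ((k + 3) * (k + 3)))
  · intro a b hab
    simp only at hab
    have : (a + 3) * (a + 3) = (b + 3) * (b + 3) := by omega
    have := Nat.mul_self_inj.mp this
    omega
  · intro k
    refine ⟨by nlinarith, _, proportional_32 (k + 3) (by omega)⟩

end Pool.Agent.Results.MP_0132f6_co.InfinitelyMany
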